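import Pool.Agent.V7H32.MH.Main

/-!
# Hoffman's conjecture: sufficient sets of words
-/

set_option autoImplicit false

open Module Filter Pool.Agent.V7H32.MZ Pool.Agent.V7H32.MH

namespace Pool.Agent.V7H32.Moved.SufficientWordsH32

theorem result (M : Motivic) (hB : Brown) :
    -- (1) sets of upper density one in a progression of weights
    (∀ (q a : ℕ), 0 < q → ∀ S : Set (List ℕ), (∀ l ∈ S, IsWord l ∧ l.sum ≡ a [MOD q]) →
      (∀ ε : ℝ, 0 < ε → ∃ᶠ N in atTop,
        (1 - ε) * {l : List ℕ | IsWord l ∧ l.sum ≡ a [MOD q] ∧ l.sum ≤ N}.ncard ≤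
          {l ∈ S | l.sum ≤ N}.ncard) →
      (HoffmanBasis ↔ LinearIndependent ℚ (fun l : S => val l))) ∧
    -- (2) the words with a given factor, weights in a progression
    (∀ u : List ℕ, IsWord u → ∀ q a : ℕ, 0 < q →
      (HoffmanBasis ↔ LinearIndependent ℚ
        (fun l : {l : List ℕ | IsWord l ∧ u <:+: l ∧ l.sum ≡ a [MOD q]} => val l))) ∧
    -- (3) the homogeneous part of the conjecture
    (∀ S : Set (List ℕ), (∀ l ∈ S, IsWord l) →
      (∀ ε : ℝ, 0 < ε → ∃ᶠ N in atTop,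
        (1 - ε) * {l : List ℕ | IsWord l ∧ l.sum = N}.ncard ≤ {l ∈ S | l.sum = N}.ncard) →
      ((∀ N, LinearIndependent ℚ (fun l : {l : List ℕ | IsWord l ∧ l.sum = N} => val l)) ↔
        ∀ N, LinearIndependent ℚ (fun l : {l : List ℕ | l ∈ S ∧ l.sum = N} => val l))) ∧
    -- (4) the words with a given factor, infinitely many weights
    (∀ u : List ℕ, IsWord u → ∀ A : Set ℕ, A.Infinite →
      ((∀ N, LinearIndependent ℚ (fun l : {l : List ℕ | IsWord l ∧ l.sum = N} => val l)) ↔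
        ∀ N ∈ A, LinearIndependent ℚ
          (fun l : {l : List ℕ | IsWord l ∧ u <:+: l ∧ l.sum = N} => val l))) ∧
    -- (5) a finite version
    (∀ m N : ℕ, m ≤ N → ∀ T : Set (List ℕ), (∀ l ∈ T, IsWord l ∧ l.sum ≤ N) →
      {l : List ℕ | IsWord l ∧ l.sum ≤ N}.ncard <
        T.ncard + {l : List ℕ | IsWord l ∧ l.sum ≤ N - m}.ncard →
      LinearIndependent ℚ (fun l : T => val l) →
      LinearIndependent ℚ (fun l : {l : List ℕ | IsWord l ∧ l.sum ≤ m} => val l)) := by
  have key (N : ℕ) : {l : List ℕ | IsWord l ∧ l.sum ≤ N}.ncard = D N := by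
    rw [D_eq_Dq, ← ncard_all]
    congr 1
    ext l
    exact ⟨fun hl => ⟨hl.1, Nat.modEq_one, hl.2⟩, fun hl => ⟨hl.1, hl.2.2⟩⟩
  refine ⟨fun q a hq S hS hd => sufficient M hB a hq S hS hd,
    fun u hu q a hq => factor M hB hu a hq, fun S hS hd => ?_,
    fun u hu A hA => factor_homogeneous M hB hu A hA, fun m N hm T hT hcard h => ?_⟩
  · refine sufficient_homogeneous M hB S hS fun ε hε => (hd ε hε).mono fun N hN => ?_
    rwa [ncard_eq] at hN
  · rw [key, key] at hcard
    exact one_level M hB hm T hT hcard h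

end Pool.Agent.V7H32.Moved.SufficientWordsH32
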